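import Pool.Agent.R67.OW3

/-!
# The Oberwolfach problem `OP(3, s, s)`

For all `s ≥ 3` the complete graph with `2 s + 3` vertices has a 2-factorization all of whose
factors consist of one triangle and two cycles of length `s`.

If `s` is even we use the vertices `ZMod (s + 1) × {0, 1}` and one more vertex, and the translates
of one base factor under `ZMod (s + 1)`. If `s` is odd we use the vertices `ZMod s × {0, 1}` and
three more vertices, the translates of one base factor under `ZMod s`, and one more factor which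
consists of the triangle on the three more vertices and of two cycles with differences
`(s - 1) / 2`.
-/

set_option autoImplicit false

namespace Pool.Agent.Results.MP_633541_co.TriangleTwoEqual

open Pool.Agent.R67.OW SimpleGraph

theorem card_pt {m k : ℕ} [NeZero m] : Fintype.card (Pt m k) = 2 * m + k := by
  simp only [Fintype.card_sum, Fintype.card_prod, ZMod.card, Fintype.card_bool, Fintype.card_fin]
  ring

theorem sol_even {m s : ℕ} {C D : ℕ → ℕ × ℕ} (hs : 3 ≤ s) (hm : m = s + 1) (hm' : m % 2 = 1)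
    (B : Fam m 1 s 0 0 C D (fun _ => False)) : Sol s := by
  have : NeZero m := ⟨by omega⟩
  refine sol_of (V := Pt m 1) (ι := ZMod m) hs ?_ ?_ (ff m 1 s 0 0 C D) (ff_inj B) ?_
  · rw [card_pt]
    omega
  · rw [ZMod.card]
    exact hm
  · intro x y hxy
    rcases cover hs hm' B x y hxy with h | ⟨_, _, _, _, h, _⟩ | ⟨i, j, h, _⟩
    · exact h
    · exact h.elim
    · exact absurd (Subsingleton.elim i j) h

/-- The fixed factor for odd `s`. -/
def fixedF (h : ℕ) : W (2 * h + 1) → Pt (2 * h + 1) 3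
  | Sum.inl i => Sum.inr i
  | Sum.inr (Sum.inl t) => Sum.inl ((t.1 : ZMod (2 * h + 1)) * (h : ZMod (2 * h + 1)), false)
  | Sum.inr (Sum.inr t) => Sum.inl ((t.1 : ZMod (2 * h + 1)) * (h : ZMod (2 * h + 1)), true)

theorem h_inv (h : ℕ) : (h : ZMod (2 * h + 1)) * (-2) = 1 := by
  have h1 : ((2 * h + 1 : ℕ) : ZMod (2 * h + 1)) = 0 := ZMod.natCast_self _
  push_cast at h1
  linear_combination -h1

theorem mul_inj {h : ℕ} {t u : Fin (2 * h + 1)}
    (e : (t.1 : ZMod (2 * h + 1)) * (h : ZMod (2 * h + 1)) =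
      (u.1 : ZMod (2 * h + 1)) * (h : ZMod (2 * h + 1))) : t = u := by
  have h1 := congrArg (· * (-2 : ZMod (2 * h + 1))) e
  simp only [mul_assoc, h_inv, mul_one] at h1
  exact Fin.ext (cast_inj t.2 u.2 h1)

theorem fixedF_inj (h : ℕ) : Function.Injective (fixedF h) := by
  intro x y e
  rcases x with x | x | x <;> rcases y with y | y | y <;>
    simp only [fixedF, Sum.inl.injEq, Sum.inr.injEq, Prod.mk.injEq, and_true, and_false,
      reduceCtorEq, Bool.false_eq_true, Bool.true_eq_false] at e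
  · rw [e]
  · rw [mul_inj e]
  · rw [mul_inj e]

theorem tri_cov : ∀ i j : Fin 3, i ≠ j → nxt 3 i = j ∨ nxt 3 j = i := by decide

theorem fixedF_cyc (h : ℕ) (u : ZMod (2 * h + 1)) (β : Bool) :
    ∃ w, s(fixedF h w, fixedF h (sg (2 * h + 1) w)) =
      s(Sum.inl (u, β), Sum.inl (u + (h : ZMod (2 * h + 1)), β)) := by
  have hval : (((u * (-2)).val : ℕ) : ZMod (2 * h + 1)) = u * (-2) := ZMod.natCast_zmod_val _
  have hlt : (u * (-2)).val < 2 * h + 1 := ZMod.val_lt _
  have h1 : (((u * (-2)).val : ℕ) : ZMod (2 * h + 1)) * (h : ZMod (2 * h + 1)) = u := by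
    rw [hval]
    linear_combination u * h_inv h
  have h2 : (((nxt (2 * h + 1) ⟨(u * (-2)).val, hlt⟩).1 : ℕ) : ZMod (2 * h + 1)) *
      (h : ZMod (2 * h + 1)) = u + (h : ZMod (2 * h + 1)) := by
    have : (((nxt (2 * h + 1) ⟨(u * (-2)).val, hlt⟩).1 : ℕ) : ZMod (2 * h + 1)) =
        (((u * (-2)).val : ℕ) : ZMod (2 * h + 1)) + 1 := by
      show ((((u * (-2)).val + 1) % (2 * h + 1) : ℕ) : ZMod (2 * h + 1)) = _
      rw [ZMod.natCast_mod]
      push_cast
      rfl
    rw [this, add_mul, one_mul, h1]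
  cases β
  · refine ⟨Sum.inr (Sum.inl ⟨(u * (-2)).val, hlt⟩), ?_⟩
    show s(Sum.inl ((((u * (-2)).val : ℕ) : ZMod (2 * h + 1)) * (h : ZMod (2 * h + 1)), false),
      Sum.inl ((((nxt (2 * h + 1) ⟨(u * (-2)).val, hlt⟩).1 : ℕ) : ZMod (2 * h + 1)) *
        (h : ZMod (2 * h + 1)), false)) = _
    rw [h1, h2]
  · refine ⟨Sum.inr (Sum.inr ⟨(u * (-2)).val, hlt⟩), ?_⟩
    show s(Sum.inl ((((u * (-2)).val : ℕ) : ZMod (2 * h + 1)) * (h : ZMod (2 * h + 1)), true),
      Sum.inl ((((nxt (2 * h + 1) ⟨(u * (-2)).val, hlt⟩).1 : ℕ) : ZMod (2 * h + 1)) *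
        (h : ZMod (2 * h + 1)), true)) = _
    rw [h1, h2]

theorem sol_odd {h : ℕ} (hh : 1 ≤ h) : Sol (2 * h + 1) := by
  have B := famO hh
  refine sol_of (V := Pt (2 * h + 1) 3) (ι := Option (ZMod (2 * h + 1))) (by omega) ?_ ?_
    (fun i => match i with
      | none => fixedF h
      | some i => ff (2 * h + 1) 3 (2 * h + 1) h (2 * h) (CO h) (DO h) i) ?_ ?_
  · rw [card_pt]
  · rw [Fintype.card_option, ZMod.card]
  · rintro (_ | i)
    · exact fixedF_inj h
    · exact ff_inj B i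
  · intro x y hxy
    rcases cover (by omega) (by omega) B x y hxy with
      ⟨i, w, h1⟩ | ⟨β, u, v, δ, hδ, h1, rfl, rfl⟩ | ⟨i, j, h1, rfl, rfl⟩
    · exact ⟨some i, w, h1⟩
    · have hδ' : δ = h := hδ
      rw [hδ'] at h1
      rcases h1 with h1 | h1
      · obtain ⟨w, hw⟩ := fixedF_cyc h u β
        refine ⟨none, w, ?_⟩
        rw [h1]
        exact hw
      · obtain ⟨w, hw⟩ := fixedF_cyc h v β
        refine ⟨none, w, ?_⟩
        rw [h1]
        exact hw.trans Sym2.eq_swap
    · rcases tri_cov i j h1 with h2 | h2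
      · refine ⟨none, Sum.inl i, ?_⟩
        show s((Sum.inr i : Pt (2 * h + 1) 3), Sum.inr (nxt 3 i)) = _
        rw [h2]
      · refine ⟨none, Sum.inl j, ?_⟩
        show s((Sum.inr j : Pt (2 * h + 1) 3), Sum.inr (nxt 3 j)) = _
        rw [h2]
        exact Sym2.eq_swap

/-- The complete graph with `2 s + 3` vertices is decomposed into `s + 1` spanning subgraphs `F i`,
each of which is the disjoint union of a triangle and two cycles of length `s`. -/
theorem result : ∀ s : ℕ, 3 ≤ s →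
    ∃ F : Fin (s + 1) → SimpleGraph (Fin (2 * s + 3)),
      (∀ i, Nonempty (F i ≃g (cycleGraph 3 ⊕g (cycleGraph s ⊕g cycleGraph s)))) ∧
      ∀ x y, x ≠ y → ∃! i, (F i).Adj x y := by
  intro s hs
  have h4 : s % 4 = 0 ∨ s % 4 = 2 ∨ s % 2 = 1 := by omega
  rcases h4 with h | h | h
  · obtain ⟨g, rfl⟩ : ∃ g, s = 4 * g := ⟨s / 4, by omega⟩
    exact sol_even hs rfl (by omega) (famA (by omega))
  · obtain ⟨g, rfl⟩ : ∃ g, s = 4 * g + 2 := ⟨s / 4, by omega⟩
    exact sol_even hs rfl (by omega) (famB (by omega))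
  · obtain ⟨g, rfl⟩ : ∃ g, s = 2 * g + 1 := ⟨s / 2, by omega⟩
    exact sol_odd (by omega)

end Pool.Agent.Results.MP_633541_co.TriangleTwoEqual
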